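import Pool.Agent.Helper73.SM.Goals

/-!
# Project SM (MP_c307ca_nt), packet EXL
-/

set_option autoImplicit false

namespace Pool.Agent.Helper59.SM

open Pool.Agent.Helper73.SM

theorem goalEXL : StmtEXL := by
  intro ξ K N p q hK hKN h a b ha
  have hK0 : (0 : ℝ) < K := by linarith
  have hN4 : (4 : ℝ) ≤ N := by nlinarith
  have hN0 : (0 : ℝ) < N := by linarith
  have hKle : K ≤ N := by nlinarith
  have hA1 : (1 : ℝ) ≤ |(a : ℝ)| := by
    have := Int.one_le_abs ha
    exact_mod_cast this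
  have hA0 : (0 : ℝ) < |(a : ℝ)| := by linarith
  have hlK : 0 < Real.log K := Real.log_pos (by linarith)
  have hlN : 2 * Real.log K ≤ Real.log N := by
    have h1 := Real.log_le_log (by positivity) hKN
    rw [Real.log_pow] at h1
    exact_mod_cast h1
  have hlN0 : 0 < Real.log N := by linarith
  set θ : ℝ := 1 + 4 * Real.log K / Real.log N with hθ
  have hθ0 : 0 ≤ θ := by positivity
  have hr0 : 0 ≤ K / (N : ℝ) := by positivity
  have hr1 : K / (N : ℝ) ≤ 1 / 2 := by
    rw [div_le_iff₀ hN0]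
    nlinarith
  have hKN1 : 1 ≤ K * N := by nlinarith
  -- the minimal index
  have hex : ∃ s : ℕ, 2 * |(a : ℝ)| * (2 / N) * (K / N) ^ s < 1 := by
    have hlim := tendsto_pow_atTop_nhds_zero_of_lt_one hr0
      (lt_of_le_of_lt hr1 (by norm_num : (1 / 2 : ℝ) < 1))
    have hC : 0 < 2 * |(a : ℝ)| * (2 / N) := by positivity
    have hev := hlim.eventually (gt_mem_nhds (show (0 : ℝ) < 1 / (2 * |(a : ℝ)| * (2 / N)) by
      positivity))
    obtain ⟨s, hs⟩ := hev.exists
    refine ⟨s, ?_⟩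
    rw [lt_div_iff₀ hC] at hs
    linarith
  classical
  set s := Nat.find hex with hs
  have hs1 : 2 * |(a : ℝ)| * (2 / N) * (K / N) ^ s < 1 := Nat.find_spec hex
  -- one of the two values is not zero
  have hne : ∃ i : ℕ, s ≤ i ∧ i ≤ s + 1 ∧ p i * a + q i * b ≠ 0 := by
    by_contra hcon
    push Not at hcon
    have e1 := hcon s le_rfl (by omega)
    have e2 := hcon (s + 1) (by omega) le_rfl
    have e3 : a * (p s * q (s + 1) - p (s + 1) * q s) = 0 := by
      linear_combination q (s + 1) * e1 - q s * e2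
    rcases mul_eq_zero.mp e3 with e | e
    · exact ha e
    · exact (h s).2.2.2 e
  obtain ⟨i, hi1, hi2, hi3⟩ := hne
  have hone : (1 : ℝ) ≤ |(p i : ℝ) * a + q i * b| := by
    have := Int.one_le_abs hi3
    exact_mod_cast this
  obtain ⟨hq0, hq1, hq2, -⟩ := h i
  have hq0' : (0 : ℝ) < q i := by exact_mod_cast hq0
  have hsplit : (p i : ℝ) * a + q i * b = a * ((p i : ℝ) - ξ * q i) + q i * (a * ξ + b) := by
    ring
  have hfirst : |(a : ℝ) * ((p i : ℝ) - ξ * q i)| ≤ 1 / 2 := by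
    rw [abs_mul]
    have h1 : (K / (N : ℝ)) ^ i ≤ (K / N) ^ s :=
      pow_le_pow_of_le_one hr0 (by linarith) hi1
    have h2 : |(a : ℝ)| * |(p i : ℝ) - ξ * q i| ≤ |(a : ℝ)| * (2 / N * (K / N) ^ i) :=
      mul_le_mul_of_nonneg_left hq2 hA0.le
    have h3 : |(a : ℝ)| * (2 / N * (K / N) ^ i) ≤ |(a : ℝ)| * (2 / N * (K / N) ^ s) := by
      gcongr
    nlinarith
  have hsecond : |(q i : ℝ) * (a * ξ + b)| ≤ (K * N) ^ (s + 1) * |(a : ℝ) * ξ + b| := by
    rw [abs_mul, abs_of_pos hq0']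
    apply mul_le_mul_of_nonneg_right _ (abs_nonneg _)
    exact hq1.trans (pow_le_pow_right₀ hKN1 hi2)
  have hmain : 1 / 2 ≤ (K * N) ^ (s + 1) * |(a : ℝ) * ξ + b| := by
    have := abs_add_le ((a : ℝ) * ((p i : ℝ) - ξ * q i)) (q i * (a * ξ + b))
    rw [← hsplit] at this
    linarith
  -- the size of the index
  have hsize : (K * N) ^ (s + 1) ≤ (K * N) ^ 2 * |(a : ℝ)| ^ θ := by
    have hAθ : 1 ≤ |(a : ℝ)| ^ θ := Real.one_le_rpow hA1 hθ0
    rcases Nat.eq_zero_or_pos s with h0 | h0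
    · rw [h0]
      have : (K * N) ^ (0 + 1) ≤ (K * N) ^ 2 := pow_le_pow_right₀ hKN1 (by norm_num)
      calc (K * N) ^ (0 + 1) ≤ (K * N) ^ 2 := this
        _ = (K * N) ^ 2 * 1 := by ring
        _ ≤ _ := mul_le_mul_of_nonneg_left hAθ (by positivity)
    · obtain ⟨t, ht⟩ : ∃ t, s = t + 1 := ⟨s - 1, by omega⟩
      have hmin : ¬ (2 * |(a : ℝ)| * (2 / N) * (K / N) ^ t < 1) :=
        Nat.find_min hex (by omega)
      push Not at hmin
      have hpow : ((N : ℝ) / K) ^ t ≤ |(a : ℝ)| := by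
        have e1 : (K / (N : ℝ)) ^ t * ((N : ℝ) / K) ^ t = 1 := by
          rw [← mul_pow]
          have : K / (N : ℝ) * ((N : ℝ) / K) = 1 := by field_simp
          rw [this, one_pow]
        have e2 : 0 < ((N : ℝ) / K) ^ t := by positivity
        have e3 : ((N : ℝ) / K) ^ t ≤ 2 * |(a : ℝ)| * (2 / N) := by
          have := mul_le_mul_of_nonneg_right hmin e2.le
          calc ((N : ℝ) / K) ^ t = 1 * ((N : ℝ) / K) ^ t := by ring
            _ ≤ 2 * |(a : ℝ)| * (2 / N) * (K / N) ^ t * ((N : ℝ) / K) ^ t := this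
            _ = 2 * |(a : ℝ)| * (2 / N) * ((K / N) ^ t * ((N : ℝ) / K) ^ t) := by ring
            _ = 2 * |(a : ℝ)| * (2 / N) := by rw [e1, mul_one]
        refine e3.trans ?_
        have : (2 : ℝ) / N ≤ 1 / 2 := by
          rw [div_le_iff₀ hN0]; linarith
        nlinarith
      have hlog : (t : ℝ) * (Real.log N - Real.log K) ≤ Real.log |(a : ℝ)| := by
        have := Real.log_le_log (by positivity) hpow
        rwa [Real.log_pow, Real.log_div hN0.ne' hK0.ne'] at this
      have hθ2 : Real.log (K * N) ≤ θ * (Real.log N - Real.log K) := by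
        rw [Real.log_mul hK0.ne' hN0.ne', hθ]
        have e1 : 4 * Real.log K / Real.log N * (Real.log N - Real.log K)
            = 4 * Real.log K - 4 * Real.log K * (Real.log K / Real.log N) := by
          field_simp
        have e2 : Real.log K / Real.log N ≤ 1 / 2 := by
          rw [div_le_iff₀ hlN0]; linarith
        have e3 : Real.log K * (Real.log K / Real.log N) ≤ Real.log K * (1 / 2) :=
          mul_le_mul_of_nonneg_left e2 hlK.le
        nlinarith
      have hfin : (K * N) ^ t ≤ |(a : ℝ)| ^ θ := by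
        rw [← Real.log_le_log_iff (by positivity) (by positivity), Real.log_pow,
          Real.log_rpow hA0]
        calc (t : ℝ) * Real.log (K * N) ≤ t * (θ * (Real.log N - Real.log K)) :=
              mul_le_mul_of_nonneg_left hθ2 (by positivity)
          _ = θ * (t * (Real.log N - Real.log K)) := by ring
          _ ≤ θ * Real.log |(a : ℝ)| := mul_le_mul_of_nonneg_left hlog hθ0
      rw [ht]
      calc (K * N) ^ (t + 1 + 1) = (K * N) ^ 2 * (K * N) ^ t := by ring
        _ ≤ _ := mul_le_mul_of_nonneg_left hfin (by positivity)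
  have hX : 0 ≤ |(a : ℝ) * ξ + b| := abs_nonneg _
  have hP : 0 < (K * N) ^ 2 := by positivity
  have hfinal : 1 / 2 ≤ (K * N) ^ 2 * (|(a : ℝ) * ξ + b| * |(a : ℝ)| ^ θ) := by
    calc 1 / 2 ≤ (K * N) ^ (s + 1) * |(a : ℝ) * ξ + b| := hmain
      _ ≤ ((K * N) ^ 2 * |(a : ℝ)| ^ θ) * |(a : ℝ) * ξ + b| :=
          mul_le_mul_of_nonneg_right hsize hX
      _ = _ := by ring
  rw [div_le_iff₀ (by positivity)]
  nlinarith

end Pool.Agent.Helper59.SM
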